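import Mathlib

set_option autoImplicit false

namespace Pool.Agent.Results.MP_97d10c_gt.Counter

open Set Filter Topology TopologicalSpace Order Ordinal

/-- chains of the operation `m` -/
def Chain {Y : Type 1} (m : Y → Y → Y) (C : Set Y) : Prop := ∀ x ∈ C, ∀ y ∈ C, m x y = x ∨ m x y = y

/-- c-completeness; the natural order is `x ≤ y ↔ m x y = x` -/
def CComplete {Y : Type 1} [TopologicalSpace Y] (m : Y → Y → Y) : Prop :=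
  ∀ F : Set Y, IsClosed F → (∀ x ∈ F, ∀ y, m x y = x → y ∈ F) → ∀ C : Set Y, C ⊆ F → C.Nonempty → Chain m C →
    (∃ a, (∀ c ∈ C, m a c = a) ∧ (∀ b, (∀ c ∈ C, m b c = b) → m b a = b) ∧ a ∈ F) ∧
    ∃ a, (∀ c ∈ C, m c a = c) ∧ (∀ b, (∀ c ∈ C, m c b = c) → m a b = a) ∧ a ∈ closure {x | ∃ c ∈ C, m x c = x}

/-- the operation restricted to a chain -/
def res {Y : Type 1} (m : Y → Y → Y) (L : Set Y) (h : Chain m L) (x y : L) : L :=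
  ⟨m x y, (h x x.2 y y.2).elim (fun e => e.symm ▸ x.2) fun e => e.symm ▸ y.2⟩

noncomputable abbrev Ω : Ordinal.{0} := ω_ 1

theorem hΩ : IsSuccLimit Ω := Cardinal.isSuccLimit_omega 1

theorem nl (a : Ordinal.{0}) : ¬ IsSuccLimit (a + 1) := not_isSuccLimit_succ a

@[ext] structure Y where
  s : Set Ordinal.{0}
  h1 : s ⊆ Iic Ω
  h2 : IsClosed s
  h3 : ∀ δ ∈ s, IsSuccLimit δ → δ < Ω → δ + 1 ∈ s

instance : PartialOrder Y := PartialOrder.lift Y.s fun _ _ => Y.ext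

instance : CommSemigroup Y where
  mul x y := ⟨x.s ∪ y.s, union_subset x.h1 y.h1, x.h2.union y.h2, fun δ h h1 h2 => h.imp (x.h3 δ · h1 h2) (y.h3 δ · h1 h2)⟩
  mul_assoc _ _ _ := Y.ext (union_assoc _ _ _)
  mul_comm _ _ := Y.ext (union_comm _ _)

theorem mul_s (x y : Y) : (x * y).s = x.s ∪ y.s := rfl

theorem cpt (x : Y) : IsCompact x.s := (isCompact_Icc (a := 0) (b := Ω)).of_isClosed_subset x.h2
  fun _ h => ⟨zero_le, x.h1 h⟩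

def Lt : Set Ordinal.{0} := {x | ¬ IsSuccLimit x ∧ ∀ δ, IsSuccLimit δ → x ≠ δ + 1}
def FL (s : Set Ordinal.{0}) : Prop := s.Finite ∧ s ⊆ Lt
def Hv (γ : Ordinal.{0}) : Prop := γ = Ω ∨ ∃ δ, IsSuccLimit δ ∧ γ = δ + 1
def Good (V : Set Ordinal.{0}) : Prop := V ⊆ Iio Ω ∧ IsClopen V ∧ ∀ δ, IsSuccLimit δ → δ + 1 ∈ V → δ ∈ V
def D (V : Set Ordinal.{0}) : Set Y := {x | Disjoint x.s V}
def P (α : Ordinal.{0}) : Set Y := {x | FL (x.s ∩ Ioi α)}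
def Q (α : Ordinal.{0}) : Set Y := {x | ∃ γ ∈ x.s, α < γ ∧ Hv γ ∧ FL (x.s ∩ Ioo α γ)}

theorem FL.mono {s t : Set Ordinal.{0}} (h : FL t) (h' : s ⊆ t) : FL s := ⟨h.1.subset h', h'.trans h.2⟩
theorem FL.union {s t : Set Ordinal.{0}} (h : FL s) (h' : FL t) : FL (s ∪ t) := ⟨h.1.union h'.1, union_subset h.2 h'.2⟩
theorem FL_empty : FL ∅ := ⟨finite_empty, empty_subset _⟩
theorem FL.clopen {s : Set Ordinal.{0}} (h : FL s) : IsClopen s :=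
  ⟨h.1.isClosed, isOpen_iff_mem_nhds.2 fun x hx => mem_of_superset
    ((SuccOrder.isOpen_singleton_iff.2 (h.2 hx).1).mem_nhds rfl) (singleton_subset_iff.2 hx)⟩

theorem Ioi_clopen (a : Ordinal.{0}) : IsClopen (Ioi a) := ⟨Ici_succ a ▸ isClosed_Ici, isOpen_Ioi⟩

theorem Ioc_clopen (a b : Ordinal.{0}) : IsClopen (Ioc a b) := by
  rw [← Ioi_inter_Iic, ← compl_Ioi]
  exact (Ioi_clopen a).inter (Ioi_clopen b).compl

theorem good {α β : Ordinal.{0}} (hα : ¬ IsSuccLimit α) (hβ : β < Ω) {F : Set Ordinal.{0}} (hF : FL F) :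
    Good (Ioc α β \ F) :=
  ⟨fun _ h => h.1.2.trans_lt hβ, (Ioc_clopen α β).diff hF.clopen, fun δ hδ h =>
    ⟨⟨(lt_succ_iff.1 h.1.1).lt_of_ne fun e => hα (e ▸ hδ), (le_succ δ).trans h.1.2⟩, fun h' => (hF.2 h').1 hδ⟩⟩

def gen : Set (Set Y) := {S | (∃ V, Good V ∧ (S = D V ∨ S = (D V)ᶜ)) ∨
  ∃ α, ¬ IsSuccLimit α ∧ α < Ω ∧ (S = P α ∨ S = Q α)}

instance : TopologicalSpace Y := generateFrom gen

theorem D_clopen {V : Set Ordinal.{0}} (h : Good V) : IsClopen (D V) :=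
  ⟨isOpen_compl_iff.1 (isOpen_generateFrom_of_mem (g := gen) (Or.inl ⟨V, h, Or.inr rfl⟩)),
    isOpen_generateFrom_of_mem (g := gen) (Or.inl ⟨V, h, Or.inl rfl⟩)⟩

theorem P_open {α : Ordinal.{0}} (h : ¬ IsSuccLimit α) (h' : α < Ω) : IsOpen (P α) :=
  isOpen_generateFrom_of_mem (g := gen) (Or.inr ⟨α, h, h', Or.inl rfl⟩)

theorem Q_open {α : Ordinal.{0}} (h : ¬ IsSuccLimit α) (h' : α < Ω) : IsOpen (Q α) :=
  isOpen_generateFrom_of_mem (g := gen) (Or.inr ⟨α, h, h', Or.inr rfl⟩)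

theorem PQ (α : Ordinal.{0}) : Disjoint (P α) (Q α) := disjoint_left.2 fun _ h1 ⟨_, h2, h3, h4, _⟩ =>
  h4.elim (fun e => (h1.2 ⟨h2, h3⟩).1 (e ▸ hΩ)) fun ⟨δ, h5, h6⟩ => (h1.2 ⟨h2, h3⟩).2 δ h5 h6

theorem sub_nhds {x : Y} {α β : Ordinal.{0}} (hα : ¬ IsSuccLimit α) (hβ : β < Ω) {F : Set Ordinal.{0}} (hF : FL F)
    (h : x.s ∩ Ioc α β ⊆ F) : ∀ᶠ y in 𝓝 x, y.s ∩ Ioc α β ⊆ F := by
  filter_upwards [(D_clopen (good hα hβ hF)).2.mem_nhds (disjoint_left.2 fun a h1 h2 => h2.2 (h ⟨h1, h2.1⟩))] with y hy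
  exact fun a ha => by_contra fun h1 => disjoint_left.1 hy ha.1 ⟨ha.2, h1⟩

theorem gap (x : Y) {a : Ordinal.{0}} (h : a ∉ x.s) (hl : IsSuccLimit a) :
    ∃ β < a, ¬ IsSuccLimit β ∧ Disjoint x.s (Ioc β a) := by
  obtain ⟨β, h1, h2⟩ := exists_Ioc_subset_of_mem_nhds (x.h2.isOpen_compl.mem_nhds h) ⟨0, hl.bot_lt⟩
  exact ⟨β + 1, hl.succ_lt h1, nl β, disjoint_right.2 fun b hb => h2 ⟨(lt_succ β).trans hb.1, hb.2⟩⟩

theorem sepV (x : Y) {a : Ordinal.{0}} (ha : a < Ω) (h : a ∉ x.s) : ∃ V, Good V ∧ a ∈ V ∧ Disjoint x.s V := by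
  by_cases h1 : IsSuccLimit a
  · obtain ⟨β, h2, h3, h4⟩ := gap x h h1
    exact ⟨_, good h3 ha FL_empty, ⟨⟨h2, le_rfl⟩, id⟩, h4.mono_right diff_subset⟩
  by_cases h2 : ∃ δ, IsSuccLimit δ ∧ a = δ + 1
  · obtain ⟨δ, h2, rfl⟩ := h2
    obtain ⟨β, h3, h4, h5⟩ := gap x (fun h3 => h (x.h3 δ h3 h2 ((lt_succ δ).trans ha))) h2
    refine ⟨_, good h4 ha FL_empty, ⟨⟨h3.trans (lt_succ δ), le_rfl⟩, id⟩, disjoint_left.2 fun b h6 h7 => ?_⟩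
    exact h7.1.2.eq_or_lt.elim (fun e => h (e ▸ h6)) fun h8 => disjoint_left.1 h5 h6 ⟨h7.1.1, lt_succ_iff.1 h8⟩
  · refine ⟨{a}, ⟨singleton_subset_iff.2 ha, FL.clopen ⟨finite_singleton a, singleton_subset_iff.2
      ⟨h1, fun δ h3 h4 => h2 ⟨δ, h3, h4⟩⟩⟩, fun δ h3 h4 => (h2 ⟨δ, h3, h4.symm⟩).elim⟩, rfl, disjoint_singleton_right.2 h⟩

instance : T2Space Y := ⟨fun x y h => by
  have h0 : ∀ x y : Y, ∀ a < Ω, a ∈ x.s → a ∉ y.s →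
      ∃ u v : Set Y, IsOpen u ∧ IsOpen v ∧ x ∈ u ∧ y ∈ v ∧ Disjoint u v := fun x y a h1 h2 h3 => by
    obtain ⟨V, h4, h5, h6⟩ := sepV y h1 h3
    exact ⟨_, _, (D_clopen h4).1.isOpen_compl, (D_clopen h4).2, fun h => disjoint_left.1 h h2 h5, h6, disjoint_compl_left⟩
  have h1 : ∀ x y : Y, ∀ a ∈ x.s, a ∉ y.s → ∃ u v : Set Y, IsOpen u ∧ IsOpen v ∧ x ∈ u ∧ y ∈ v ∧ Disjoint u v := by
    intro x y a h2 h3
    rcases (mem_Iic.1 (x.h1 h2)).eq_or_lt with rfl | h4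
    · obtain ⟨β, h4, h5, h6⟩ := gap y h3 hΩ
      by_cases h7 : ∃ b ∈ x.s, b ∈ Ioo β Ω
      · obtain ⟨b, h7, h8⟩ := h7
        exact h0 x y b h8.2 h7 fun h => disjoint_left.1 h6 h ⟨h8.1, h8.2.le⟩
      · exact ⟨_, _, Q_open h5 h4, P_open h5 h4, ⟨Ω, h2, h4, Or.inl rfl, FL_empty.mono fun b hb => h7 ⟨b, hb.1, hb.2⟩⟩,
          FL_empty.mono fun b hb => disjoint_left.1 h6 hb.1 ⟨hb.2, y.h1 hb.1⟩, (PQ β).symm⟩
    · exact h0 x y a h4 h2 h3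
  by_cases h2 : x.s ⊆ y.s
  · obtain ⟨a, h3, h4⟩ := not_subset.1 fun h3 => h (Y.ext (h2.antisymm h3))
    obtain ⟨u, v, h5, h6, h7, h8, h9⟩ := h1 y x a h3 h4
    exact ⟨v, u, h6, h5, h8, h7, h9.symm⟩
  · obtain ⟨a, h3, h4⟩ := not_subset.1 h2
    exact h1 x y a h3 h4⟩

theorem Q_mul {x y : Y} {α : Ordinal.{0}} (hx : x ∈ Q α) (hy : y ∈ P α ∨ y ∈ Q α) : x * y ∈ Q α := by
  obtain ⟨γ, h1, h2, h3, h4⟩ := hx
  have h5 : FL (y.s ∩ Ioo α γ) → x * y ∈ Q α := fun h => ⟨γ, Or.inl h1, h2, h3, by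
    rw [mul_s, union_inter_distrib_right]; exact h4.union h⟩
  rcases hy with hy | ⟨δ, h6, h7, h8, h9⟩
  · exact h5 (hy.mono fun a ha => ⟨ha.1, ha.2.1⟩)
  · rcases le_total γ δ with h | h
    · exact h5 (h9.mono fun a ha => ⟨ha.1, ha.2.1, ha.2.2.trans_le h⟩)
    · refine ⟨δ, Or.inr h6, h7, h8, ?_⟩
      rw [mul_s, union_inter_distrib_right]
      exact (h4.mono fun a ha => ⟨ha.1, ha.2.1, ha.2.2.trans_le h⟩).union h9

theorem Q_nhds {x y : Y} {α γ : Ordinal.{0}} (hα : ¬ IsSuccLimit α) (h1 : γ ∈ x.s) (h2 : α < γ) (h3 : Hv γ)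
    (h4 : FL ((x * y).s ∩ Ioo α γ)) : ∀ᶠ p : Y × Y in 𝓝 (x, y), p.1 * p.2 ∈ Q α := by
  have hx : x.s ∩ Ioo α γ ⊆ (x * y).s ∩ Ioo α γ := inter_subset_inter_left _ subset_union_left
  have hy : y.s ∩ Ioo α γ ⊆ (x * y).s ∩ Ioo α γ := inter_subset_inter_left _ subset_union_right
  rcases h3 with rfl | ⟨δ, h3, rfl⟩
  · refine mem_of_superset (prod_mem_nhds ((Q_open hα h2).mem_nhds ⟨Ω, h1, h2, Or.inl rfl, h4.mono hx⟩)
      (((P_open hα h2).union (Q_open hα h2)).mem_nhds ?_)) fun p hp => Q_mul hp.1 hp.2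
    by_cases h5 : Ω ∈ y.s
    · exact Or.inr ⟨Ω, h5, h2, Or.inl rfl, h4.mono hy⟩
    · exact Or.inl (h4.mono fun a ha => hy ⟨ha.1, ha.2, (y.h1 ha.1).lt_of_ne fun e => h5 (e ▸ ha.1)⟩)
  · have h5 : δ + 1 < Ω := (x.h1 h1).lt_of_ne fun e => nl δ (e ▸ hΩ)
    have h6 : Ioc α δ = Ioo α (δ + 1) := (Ioo_succ_right_eq_Ioc α δ).symm
    filter_upwards [prod_mem_nhds (sub_nhds hα ((lt_succ δ).trans h5) h4 (h6 ▸ hx))
        (sub_nhds hα ((lt_succ δ).trans h5) h4 (h6 ▸ hy)),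
      continuous_fst.continuousAt.eventually ((D_clopen (good hα h5 h4)).1.isOpen_compl.mem_nhds (x := x)
        fun h => disjoint_left.1 h h1 ⟨⟨h2, le_rfl⟩, fun h => lt_irrefl _ h.2.2⟩)] with p ⟨h7, h8⟩ h9
    obtain ⟨a, h10, h11, h12⟩ := not_disjoint_iff.1 h9
    refine ⟨δ + 1, Or.inl (h11.2.eq_or_lt.elim (fun e => e ▸ h10) fun h => (h12 (h7 ⟨h10, h11.1, lt_succ_iff.1 h⟩)).elim),
      h2, Or.inr ⟨δ, h3, rfl⟩, h4.mono ?_⟩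
    rw [mul_s p.1, union_inter_distrib_right, ← h6]
    exact union_subset (h6 ▸ h7) (h6 ▸ h8)

instance : ContinuousMul Y := ⟨continuous_generateFrom_iff.2 (by
  have h0 : ∀ V, Good V → IsClopen ((fun p : Y × Y => p.1 * p.2) ⁻¹' D V) := fun V hV => by
    convert (D_clopen hV).prod (D_clopen hV) using 1
    exact Set.ext fun p => disjoint_union_left
  rintro _ (⟨V, hV, rfl | rfl⟩ | ⟨α, h1, h2, rfl | rfl⟩)
  · exact (h0 V hV).2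
  · exact (h0 V hV).1.isOpen_compl
  · convert (P_open h1 h2).prod (P_open h1 h2) using 1
    refine Set.ext fun p => ⟨fun h => ⟨FL.mono h (inter_subset_inter_left _ subset_union_left),
      FL.mono h (inter_subset_inter_left _ subset_union_right)⟩, fun h => ?_⟩
    show FL ((p.1.s ∪ p.2.s) ∩ _)
    rw [union_inter_distrib_right]
    exact h.1.union h.2
  · refine isOpen_iff_mem_nhds.2 fun ⟨x, y⟩ ⟨γ, h3, h4, h5, h6⟩ => h3.elim (fun h => Q_nhds h1 h h4 h5 h6) fun h => ?_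
    exact ((continuous_swap.tendsto (x, y)).eventually (Q_nhds h1 h h4 h5 (mul_comm x y ▸ h6))).mono fun p hp =>
      show p.1 * p.2 ∈ Q α from mul_comm p.2 p.1 ▸ hp)⟩

abbrev X : Type 1 := {y : Y // y.s.Nonempty}

def m (x y : X) : X := ⟨x.1 * y.1, x.2.mono subset_union_left⟩

theorem m_eq {x y : X} : m x y = x ↔ y ≤ x := Subtype.ext_iff.trans (Y.ext_iff.trans union_eq_left)

theorem m_comm (x y : X) : m x y = m y x := Subtype.ext (mul_comm _ _)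

theorem chain_iff {C : Set X} : Chain m C ↔ IsChain (· ≤ ·) C :=
  ⟨fun h x hx y hy _ => (h x hx y hy).symm.imp (fun e => m_eq.1 (m_comm x y ▸ e)) m_eq.1,
    fun h x hx y hy => (h.total hx hy).symm.imp m_eq.2 fun e => m_comm y x ▸ m_eq.2 e⟩

theorem not_closed : ¬ IsClosed (range (Subtype.val : X → Y)) := by
  intro h
  have h0 : ∀ a : Ordinal.{0}, a + 1 + 1 ∈ Lt := fun a => ⟨nl _, fun δ h e => nl a (succ_injective e ▸ h)⟩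
  let f : Iio Ω → Y := fun a => ⟨{a.1 + 1 + 1}, singleton_subset_iff.2 (hΩ.succ_lt (hΩ.succ_lt a.2)).le,
    isClosed_singleton, fun δ h h' => ((h0 a).1 (h ▸ h')).elim⟩
  have : Nonempty (Iio Ω) := ⟨⟨0, hΩ.bot_lt⟩⟩
  have h1 : Tendsto f atTop (𝓝 ⟨∅, empty_subset _, isClosed_empty, fun _ h => h.elim⟩) := by
    refine tendsto_nhds_generateFrom_iff.2 ?_
    rintro _ (⟨V, hV, rfl | rfl⟩ | ⟨α, h1, h2, rfl | rfl⟩) h
    · obtain ⟨β, h2, h3⟩ := exists_Ioc_subset_of_mem_nhds (hV.2.1.1.isOpen_compl.mem_nhds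
        fun h => lt_irrefl Ω (hV.1 h)) ⟨0, hΩ.bot_lt⟩
      exact (eventually_ge_atTop (⟨β, h2⟩ : Iio Ω)).mono fun a ha => disjoint_singleton_left.2
        (h3 ⟨lt_of_le_of_lt ha ((lt_succ _).trans (lt_succ _)), (f a).h1 rfl⟩)
    · exact (h (empty_disjoint _)).elim
    · exact Eventually.of_forall fun a => FL.mono ⟨finite_singleton _, singleton_subset_iff.2 (h0 a)⟩ inter_subset_left
    · obtain ⟨_, h, -⟩ := h
      exact h.elim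
  obtain ⟨x, hx⟩ := h.mem_of_tendsto h1 (Eventually.of_forall fun a => ⟨⟨f a, singleton_nonempty _⟩, rfl⟩)
  exact x.2.ne_empty (congrArg Y.s hx)

theorem dd {C : Set X} (hc : IsChain (· ≤ ·) C) : DirectedOn (· ≥ ·) C := fun x hx y hy =>
  (hc.total hx hy).elim (fun h => ⟨x, hx, le_rfl, h⟩) fun h => ⟨y, hy, h, le_rfl⟩

theorem chainF {T : Set X} (r : X → X → Prop) (ht : ∀ a b c, r a b → r b c → r a c) (hne : T.Nonempty)
    (hd : DirectedOn r T) : ∃ F : Filter X, F.NeBot ∧ T ∈ F ∧ ∀ c ∈ T, ∀ᶠ b in F, r c b := by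
  have := hne.to_subtype
  obtain ⟨c, hc⟩ := hne
  refine ⟨⨅ c : T, 𝓟 {b | b ∈ T ∧ r c b}, iInf_neBot_of_directed' (fun a b => ?_) fun a => ?_,
    mem_iInf_of_mem ⟨c, hc⟩ fun _ h => h.1, fun c hc => mem_iInf_of_mem (⟨c, hc⟩ : T) fun _ h => h.2⟩
  · obtain ⟨z, hz, h1, h2⟩ := hd a a.2 b b.2
    exact ⟨⟨z, hz⟩, principal_mono.2 fun _ h => ⟨h.1, ht _ _ _ h1 h.2⟩, principal_mono.2 fun _ h => ⟨h.1, ht _ _ _ h2 h.2⟩⟩
  · obtain ⟨z, hz, h1, -⟩ := hd a a.2 a a.2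
    exact principal_neBot_iff.2 ⟨z, hz, h1⟩

theorem mem_cl {T : Set X} {F : Filter X} [F.NeBot] (hT : T ∈ F) {a : X} (h : ∀ S ∈ gen, a.1 ∈ S → ∀ᶠ b in F, b.1 ∈ S) :
    a ∈ closure T :=
  mem_closure_of_tendsto (f := id) (tendsto_subtype_rng.2 (tendsto_nhds_generateFrom_iff.2 h)) hT

def inf (S : Set Y) : Y := ⟨Iic Ω ∩ ⋂ x ∈ S, x.s, inter_subset_left, isClosed_Iic.inter (isClosed_biInter fun x _ => x.h2),
  fun δ h h1 h2 => ⟨(hΩ.succ_lt h2).le, mem_iInter₂.2 fun x hx => x.h3 δ (mem_iInter₂.1 h.2 x hx) h1 h2⟩⟩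

theorem inf_glb (S : Set Y) : IsGLB S (inf S) :=
  ⟨fun x hx _ h => mem_iInter₂.1 h.2 x hx, fun b hb => subset_inter b.h1 (subset_iInter₂ fun _ hx => hb hx)⟩

def del (x : Y) {α γ : Ordinal.{0}} (hα : ¬ IsSuccLimit α) (h1 : α < γ) (h2 : FL (x.s ∩ Ioo α γ)) : Y :=
  ⟨x.s \ {γ}, diff_subset.trans x.h1, by
    have : x.s \ {γ} = x.s \ Ioc α γ ∪ x.s ∩ Ioo α γ := Set.ext fun a => ⟨fun h => by
      by_cases h3 : a ∈ Ioc α γ
      exacts [Or.inr ⟨h.1, h3.1, h3.2.lt_of_ne h.2⟩, Or.inl ⟨h.1, h3⟩],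
      fun h => h.elim (fun h => ⟨h.1, fun e => h.2 (mem_of_eq_of_mem e ⟨h1, le_rfl⟩)⟩) fun h => ⟨h.1, h.2.2.ne⟩⟩
    rw [this]
    exact (x.h2.sdiff (Ioc_clopen α γ).2).union h2.1.isClosed,
    fun δ h h3 h4 => ⟨x.h3 δ h.1 h3 h4, fun e => (h2.2 ⟨h.1, (lt_succ_iff.1 (h1.trans_eq (Eq.symm e))).lt_of_ne
      fun e => hα (e ▸ h3), (lt_succ δ).trans_eq e⟩).1 h3⟩⟩

theorem asc {C : Set X} (hne : C.Nonempty) (hc : IsChain (· ≤ ·) C) : ∃ a, IsLUB C a ∧ a ∈ closure C := by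
  obtain ⟨F, _, h1, h2⟩ := chainF (· ≤ ·) (fun _ _ _ => le_trans) hne hc.directedOn
  have h3 : IsLUB (Subtype.val '' C) (inf (upperBounds (Subtype.val '' C))) := isGLB_upperBounds.1 (inf_glb _)
  generalize inf (upperBounds (Subtype.val '' C)) = a at h3
  obtain ⟨c, hc'⟩ := hne
  have h4 : ∀ b ∈ C, b.1.s ⊆ a.s := fun b hb => h3.1 ⟨b, hb, rfl⟩
  have h5 : ∀ p : Y, ¬ a ≤ p → ∀ᶠ b in F, ¬ b.1 ≤ p := fun p hp => by
    obtain ⟨b, hb, h⟩ : ∃ b ∈ C, ¬ b.1 ≤ p := by_contra fun h => hp (h3.2 (forall_mem_image.2 fun b hb =>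
      by_contra fun h' => h ⟨b, hb, h'⟩))
    exact (h2 b hb).mono fun d hd h' => h (le_trans hd h')
  refine ⟨⟨a, c.2.mono (h4 c hc')⟩, ⟨h4, fun b hb => h3.2 (forall_mem_image.2 hb)⟩, mem_cl h1 ?_⟩
  rintro _ (⟨V, hV, rfl | rfl⟩ | ⟨α, h6, h7, rfl | rfl⟩) h
  · exact mem_of_superset h1 fun b hb => Disjoint.mono_left (h4 b hb) h
  · refine (h5 ⟨Iic Ω \ V, diff_subset, isClosed_Iic.sdiff hV.2.1.2, fun δ h h8 h9 =>
      ⟨(hΩ.succ_lt h9).le, fun h' => h.2 (hV.2.2 δ h8 h')⟩⟩ fun h' => h (disjoint_left.2 fun z hz => (h' hz).2)).mono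
      fun b hb h' => hb fun z hz => ⟨b.1.h1 hz, disjoint_left.1 h' hz⟩
  · exact mem_of_superset h1 fun b hb => FL.mono h (inter_subset_inter_left _ (h4 b hb))
  · obtain ⟨γ, h8, h9, h10, h11⟩ := h
    filter_upwards [h1, h5 (del a h6 h9 h11) fun h => (h h8).2 rfl] with b hb h12
    exact ⟨γ, by_contra fun h13 => h12 fun z hz => ⟨h4 b hb hz, fun e => h13 (e ▸ hz)⟩, h9, h10,
      h11.mono (inter_subset_inter_left _ (h4 b hb))⟩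

theorem shrink {C : Set X} (hne : C.Nonempty) (hc : IsChain (· ≤ ·) C) {V : Set Ordinal.{0}} (hV : IsClosed V)
    (h : Disjoint (inf (Subtype.val '' C)).s V) : ∃ c ∈ C, Disjoint c.1.s V := by
  have := hne.to_subtype
  obtain ⟨c, h1⟩ := ((isCompact_Icc (a := 0) (b := Ω)).inter_right hV).elim_directed_family_closed
    (fun c : C => c.1.1.s) (fun c => c.1.1.h2) (eq_empty_of_forall_notMem fun z hz => disjoint_left.1 h
      ⟨hz.1.1.2, mem_iInter₂.2 (forall_mem_image.2 fun c hc => mem_iInter.1 hz.2 ⟨c, hc⟩)⟩ hz.1.2)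
    (directedOn_iff_directed.1 (dd hc))
  exact ⟨c, c.2, disjoint_left.2 fun z h2 h3 => (h1 ▸ ⟨⟨⟨zero_le, c.1.1.h1 h2⟩, h3⟩, h2⟩ : z ∈ (∅ : Set _))⟩

theorem desc {C : Set X} (hne : C.Nonempty) (hc : IsChain (· ≤ ·) C) {a : X} (ha : a.1 = inf (Subtype.val '' C))
    (hQ : ∀ α < Ω, ¬ IsSuccLimit α → Ω ∈ a.1.s → FL (a.1.s ∩ Ioo α Ω) → ∃ c ∈ C, ∀ b ∈ C, b ≤ c → b.1 ∈ Q α) :
    a ∈ closure C := by
  obtain ⟨F, _, h1, h2⟩ := chainF (· ≥ ·) (fun _ _ _ => ge_trans) hne (dd hc)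
  have h4 : ∀ b ∈ C, a.1.s ⊆ b.1.s := fun b hb => ha ▸ (inf_glb _).1 ⟨b, hb, rfl⟩
  have h5 : ∀ V, IsClosed V → Disjoint a.1.s V → ∀ᶠ b in F, Disjoint b.1.s V := fun V hV h => by
    obtain ⟨c, h5, h6⟩ := shrink hne hc hV (ha ▸ h)
    exact (h2 c h5).mono fun b hb => Disjoint.mono_left hb h6
  have h3 : ∀ V, IsClosed V → FL (a.1.s ∩ V) → ∀ᶠ b in F, FL (b.1.s ∩ V) := fun V hV h =>
    (h5 _ (hV.sdiff h.clopen.2) (disjoint_left.2 fun z h1 h2 => h2.2 ⟨h1, h2.1⟩)).mono fun b hb =>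
      h.mono fun z hz => by_contra fun h' => disjoint_left.1 hb hz.1 ⟨hz.2, h'⟩
  refine mem_cl h1 ?_
  rintro _ (⟨V, hV, rfl | rfl⟩ | ⟨α, h6, h7, rfl | rfl⟩) h
  · exact h5 V hV.2.1.1 h
  · exact mem_of_superset h1 fun b hb h' => h (Disjoint.mono_left (h4 b hb) h')
  · exact h3 _ (Ioi_clopen α).1 h
  · obtain ⟨γ, h8, h9, rfl | ⟨δ, h10, rfl⟩, h11⟩ := h
    · obtain ⟨c, h12, h13⟩ := hQ α h7 h6 h8 h11
      filter_upwards [h1, h2 c h12] with b h14 h15 using h13 b h14 h15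
    · have h12 : Ioc α δ = Ioo α (δ + 1) := (Ioo_succ_right_eq_Ioc α δ).symm
      filter_upwards [h1, h3 _ (Ioc_clopen α δ).1 (h12 ▸ h11)] with b h13 h14
      exact ⟨_, h4 b h13 h8, h9, Or.inr ⟨δ, h10, rfl⟩, h12 ▸ h14⟩

theorem lim {C : Set X} (hne : C.Nonempty) (hc : IsChain (· ≤ ·) C) {α : Ordinal.{0}} (hα : α < Ω)
    (h1 : Disjoint (inf (Subtype.val '' C)).s (Ioo α Ω)) (h2 : ∀ c ∈ C, ∀ β < Ω, ∃ x ∈ c.1.s, x ∈ Ioo β Ω) (c : C) :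
    ∃ δ, IsSuccLimit δ ∧ δ ∈ Ioo α Ω ∧ δ ∈ c.1.1.s ∧ ∀ x ∈ Ioo α δ, ∃ d ∈ C, δ ∈ d.1.s ∧ x ∉ d.1.s := by
  choose μ h3 h4 using fun c : C => h2 c c.2 α hα
  have h5 : ∀ c : C, ∃ d : C, d ≤ c ∧ Disjoint d.1.1.s (Ioc α (μ c)) := fun c => by
    obtain ⟨d, h5, h6⟩ := shrink hne hc (Ioc_clopen α (μ c)).1 (h1.mono_right (Ioc_subset_Ioo_right (h4 c).2))
    rcases hc.total h5 c.2 with h | h
    · exact ⟨⟨d, h5⟩, h, h6⟩
    · exact ⟨c, le_rfl, Disjoint.mono_left h h6⟩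
  choose st h5 h6 using h5
  let e : ℕ → C := fun k => st^[k] c
  have h7 : ∀ k, e (k + 1) = st (e k) := fun k => Function.iterate_succ_apply' _ _ _
  have h8 : Antitone e := antitone_nat_of_succ_le fun k => h7 k ▸ h5 _
  have h9 : StrictMono fun k => μ (e k) := strictMono_nat_of_lt_succ fun k => not_le.1 fun h =>
    disjoint_left.1 (h6 (e k)) (h7 k ▸ h3 _) ⟨(h4 _).1, h⟩
  have h10 : ∀ k, μ (e k) < ⨆ k, μ (e k) := fun k => (h9 k.lt_succ_self).trans_le (Ordinal.le_iSup (fun k => μ (e k)) _)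
  have h11 : ∀ k, (⨆ k, μ (e k)) ∈ (e k).1.1.s := fun k => (e k).1.1.h2.mem_of_tendsto
    (tendsto_atTop_ciSup h9.monotone bddAbove_of_small) ((eventually_ge_atTop k).mono fun j hj => h8 hj (h3 _))
  refine ⟨_, isSuccLimit_iff.2 ⟨(zero_le.trans_lt (h10 0)).ne', isSuccPrelimit_of_succ_lt fun b hb => ?_⟩,
    ⟨(h4 _).1.trans (h10 0), Ordinal.iSup_lt_omega_one fun k => (h4 _).2⟩, h11 0, fun x hx => ?_⟩
  · obtain ⟨k, hk⟩ := Ordinal.lt_iSup_iff.1 hb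
    exact (succ_le_of_lt hk).trans_lt (h10 k)
  · obtain ⟨k, hk⟩ := Ordinal.lt_iSup_iff.1 hx.2
    exact ⟨_, (e (k + 1)).2, h11 _, fun h => disjoint_left.1 (h6 (e k)) (h7 k ▸ h) ⟨hx.1, hk.le⟩⟩

theorem glb_mem {L C : Set X} (hc : IsChain (· ≤ ·) L) (hL : ∀ p, (∀ l ∈ L, p ≤ l ∨ l ≤ p) → p ∈ L) (hC : C ⊆ L)
    {a : X} (ha : a.1 = inf (Subtype.val '' C)) : a ∈ L := hL a fun l hl => by
  by_cases h : ∃ c ∈ C, c ≤ l
  · obtain ⟨c, h1, h2⟩ := h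
    exact Or.inl (le_trans (show a.1 ≤ c.1 from ha ▸ (inf_glb _).1 ⟨c, h1, rfl⟩) h2)
  · exact Or.inr (show l.1 ≤ a.1 from ha ▸ (inf_glb _).2 (forall_mem_image.2 fun c h1 =>
      (hc.total hl (hC h1)).resolve_right fun h2 => h ⟨c, h1, h2⟩))

theorem down {L C : Set X} (hc : IsChain (· ≤ ·) L) (hL : ∀ p, (∀ l ∈ L, p ≤ l ∨ l ≤ p) → p ∈ L) (hC : C ⊆ L)
    (hne : C.Nonempty) {a : X} (ha : a.1 = inf (Subtype.val '' C)) : a ∈ closure {x | x ∈ L ∧ ∃ c ∈ C, c ≤ x} := by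
  have hc' := hc.mono hC
  have h0 : ∀ b ∈ C, a.1.s ⊆ b.1.s := fun b hb => ha ▸ (inf_glb _).1 ⟨b, hb, rfl⟩
  have h00 : ∀ α β, FL (a.1.s ∩ Ioo α Ω) → β < Ω → ∃ c ∈ C, FL (c.1.s ∩ Ioc α β) := fun α β h hβ => by
    obtain ⟨c, h1, h2⟩ := shrink hne hc' ((Ioc_clopen α β).1.sdiff h.clopen.2)
      (ha ▸ disjoint_left.2 fun z h1 h2 => h2.2 ⟨h1, Ioc_subset_Ioo_right hβ h2.1⟩)
    exact ⟨c, h1, h.mono fun z hz => by_contra fun h' => disjoint_left.1 h2 hz.1 ⟨hz.2, h'⟩⟩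
  by_cases h1 : ∀ c ∈ C, ∀ β < Ω, ∃ x ∈ c.1.s, x ∈ Ioo β Ω
  swap
  · push Not at h1
    obtain ⟨c, h1, β, h2, h3⟩ := h1
    refine closure_mono (fun x hx => by exact ⟨hC hx, x, hx, le_rfl⟩) (desc hne hc' ha fun α h4 h5 h6 h7 => ?_)
    obtain ⟨d, h8, h9⟩ := h00 α β h7 h2
    obtain ⟨e, h10, h11, h12⟩ := dd hc' c h1 d h8
    exact ⟨e, h10, fun b hb h13 => ⟨Ω, h0 b hb h6, h4, Or.inl rfl, h9.mono fun z hz => ⟨h12 (h13 hz.1), hz.2.1,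
      not_lt.1 fun h => h3 z (h11 (h13 hz.1)) ⟨h, hz.2.2⟩⟩⟩⟩
  by_cases h2 : ∃ α < Ω, ¬ IsSuccLimit α ∧ Disjoint a.1.s (Ioo α Ω)
  swap
  · refine closure_mono (fun x hx => by exact ⟨hC hx, x, hx, le_rfl⟩) (desc hne hc' ha fun α h4 h5 h6 h7 => (h2 ?_).elim)
    obtain ⟨β, h8, h9⟩ := exists_Ioc_subset_of_mem_nhds (h7.1.isClosed.isOpen_compl.mem_nhds
      fun h => lt_irrefl Ω h.2.2) ⟨0, hΩ.bot_lt⟩
    exact ⟨max α β + 1, hΩ.succ_lt (max_lt h4 h8), nl _, disjoint_left.2 fun z h10 h11 => h9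
      ⟨((le_max_right _ _).trans_lt (lt_succ _)).trans h11.1, h11.2.le⟩
      ⟨h10, ((le_max_left _ _).trans_lt (lt_succ _)).trans h11.1, h11.2⟩⟩
  obtain ⟨α, h2, h3, h4⟩ := h2
  let T := {x | (x ∈ L ∧ ∃ c ∈ C, c ≤ x) ∧ ∃ δ, IsSuccLimit δ ∧ α < δ ∧ δ + 1 ∈ x.1.s ∧ Disjoint x.1.s (Ioo α (δ + 1))}
  have h5 : ∀ c ∈ C, ∃ t ∈ T, t ≤ c := fun c h5 => by
    obtain ⟨δ, h6, h7, h8, h9⟩ := lim hne hc' h2 (ha ▸ h4) h1 ⟨c, h5⟩
    let E := {e | e ∈ L ∧ δ ∈ e.1.s}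
    have h10 : δ ∈ (inf (Subtype.val '' E)).s := ⟨h7.2.le, mem_iInter₂.2 (forall_mem_image.2 fun e he => he.2)⟩
    have h11 : ∀ e ∈ E, inf (Subtype.val '' E) ≤ e.1 := fun e he => (inf_glb _).1 ⟨e, he, rfl⟩
    have h12 : FL ((inf (Subtype.val '' E)).s ∩ Ioo α δ) := FL_empty.mono fun z hz => by
      obtain ⟨d, h12, h13, h14⟩ := h9 z hz.2
      exact h14 (h11 d ⟨hC h12, h13⟩ hz.1)
    have h13 : δ + 1 ∈ (del _ h3 h7.1 h12).s := ⟨Y.h3 _ δ h10 h6 h7.2, (lt_succ δ).ne'⟩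
    have h14 : ∀ l ∈ L, δ ∉ l.1.s → l ≤ ⟨del _ h3 h7.1 h12, _, h13⟩ := fun l hl h z hz =>
      ⟨(inf_glb _).2 (forall_mem_image.2 fun e he => (hc.total hl he.1).resolve_right fun h' => h (h' he.2)) hz,
        fun e => h (e ▸ hz)⟩
    obtain ⟨d, h15, h16⟩ := shrink hne hc' isClosed_singleton (ha ▸ h4.mono_right (singleton_subset_iff.2 h7))
    refine ⟨⟨_, _, h13⟩, ⟨⟨hL _ fun l hl => ?_, d, h15, h14 d (hC h15) (disjoint_singleton_right.1 h16)⟩, δ, h6, h7.1, h13,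
      disjoint_left.2 fun z h17 h18 => ?_⟩, fun z hz => h11 c ⟨hC h5, h8⟩ hz.1⟩
    · by_cases h : δ ∈ l.1.s
      exacts [Or.inl fun z hz => h11 l ⟨hl, h⟩ hz.1, Or.inr (h14 l hl h)]
    · obtain ⟨d, h12, h13, h14⟩ := h9 z ⟨h18.1, (lt_succ_iff.1 h18.2).lt_of_ne h17.2⟩
      exact h14 (h11 d ⟨hC h12, h13⟩ h17.1)
  have h6 : T.Nonempty := hne.elim fun c h => (h5 c h).imp fun _ h => h.1
  refine closure_mono (fun x hx => hx.1) (desc (C := T) h6 (hc.mono fun x hx => hx.1.1) (le_antisymm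
    ((inf_glb _).2 (forall_mem_image.2 fun t ⟨⟨_, c, h7, h8⟩, _⟩ => (h0 c h7).trans h8))
    (ha ▸ (inf_glb _).2 (forall_mem_image.2 fun c h7 => ?_))) fun β h7 h8 h9 h10 => ?_)
  · obtain ⟨t, h8, h9⟩ := h5 c h7
    exact ((inf_glb _).1 (mem_image_of_mem _ h8)).trans h9
  · obtain ⟨c, h11, h12⟩ := h00 β α h10 h2
    obtain ⟨d, h13, h14⟩ := shrink hne hc' (Ioc_clopen α (β + 1)).1
      (ha ▸ h4.mono_right (Ioc_subset_Ioo_right (hΩ.succ_lt h7)))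
    obtain ⟨e, h15, h16, h17⟩ := dd hc' c h11 d h13
    obtain ⟨t, h18, h19⟩ := h5 e h15
    refine ⟨t, h18, fun b ⟨_, δ, h20, h21, h22, h23⟩ hb => ⟨δ + 1, h22, not_le.1 fun h => disjoint_left.1 h14
      (h17 (h19 (hb h22))) ⟨h21.trans (lt_succ δ), h.trans (le_succ β)⟩, Or.inr ⟨δ, h20, rfl⟩, h12.mono fun z hz =>
      ⟨h16 (h19 (hb hz.1)), hz.2.1, not_lt.1 fun h => disjoint_left.1 h23 hz.1 ⟨h, hz.2.2⟩⟩⟩⟩

theorem chains (L : Set X) (hL : Maximal (Chain m) L) : CComplete (res m L hL.prop) := by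
  have hc := chain_iff.1 hL.prop
  have h1 : ∀ p, (∀ l ∈ L, p ≤ l ∨ l ≤ p) → p ∈ L := fun p h => hL.le_of_ge (y := insert p L)
    (chain_iff.2 (hc.insert fun l hl _ => h l hl)) (subset_insert _ _) (mem_insert _ _)
  have h3 : ∀ x y : L, res m L hL.prop x y = x ↔ y.1 ≤ x.1 := fun x y => Subtype.ext_iff.trans m_eq
  simp only [CComplete, h3]
  intro F hF _ C hC hne _
  have h4 := Subtype.coe_image_subset L C
  have h5 := hne.image Subtype.val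
  refine ⟨?_, ?_⟩
  · obtain ⟨a, h6, h7⟩ := asc h5 (hc.mono h4)
    have h8 : a ∈ L := h1 a fun l hl => by
      by_cases h : ∃ c ∈ Subtype.val '' C, l ≤ c
      · obtain ⟨c, h8, h9⟩ := h
        exact Or.inr (h9.trans (h6.1 h8))
      · exact Or.inl (h6.2 fun c h8 => (hc.total (h4 h8) hl).resolve_right fun h9 => h ⟨c, h8, h9⟩)
    exact ⟨⟨a, h8⟩, fun c h => h6.1 ⟨c, h, rfl⟩, fun b hb => h6.2 (forall_mem_image.2 hb),
      closure_minimal hC hF (closure_subtype.2 h7)⟩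
  · have h6 : (inf (Subtype.val '' (Subtype.val '' C))).s.Nonempty := nonempty_iff_ne_empty.2 fun h => by
      obtain ⟨c, -, h7⟩ := shrink h5 (hc.mono h4) isClosed_univ (h ▸ empty_disjoint _)
      exact c.2.ne_empty (disjoint_univ.1 h7)
    refine ⟨⟨⟨_, h6⟩, glb_mem hc h1 h4 rfl⟩, fun c h => (inf_glb _).1 ⟨_, ⟨c, h, rfl⟩, rfl⟩,
      fun b hb => (inf_glb _).2 (forall_mem_image.2 (forall_mem_image.2 hb)),
      closure_subtype.2 (closure_mono ?_ (down hc h1 h4 h5 rfl))⟩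
    rintro x ⟨hx, _, ⟨c, h7, rfl⟩, h8⟩
    exact ⟨⟨x, hx⟩, ⟨c, h7, h8⟩, rfl⟩

/-- the negated forms of Q1 and Q2 -/
theorem result : ∃ (X : Type 1) (_ : TopologicalSpace X) (m : X → X → X), T2Space X ∧
    (Continuous fun p : X × X => m p.1 p.2) ∧ (∀ x y z, m (m x y) z = m x (m y z)) ∧ (∀ x y, m x y = m y x) ∧
    (∀ x, m x x = x) ∧ (∀ (L : Set X) (h : Maximal (Chain m) L), CComplete (res m L h.prop)) ∧
    ∃ (Y : Type 1) (_ : TopologicalSpace Y) (_ : Semigroup Y) (h : X → Y), ContinuousMul Y ∧ T2Space Y ∧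
      IsEmbedding h ∧ (∀ x y, h (m x y) = h x * h y) ∧ ¬ IsClosed (range h) :=
  ⟨X, inferInstance, m, inferInstance, ((continuous_subtype_val.comp continuous_fst).mul
    (continuous_subtype_val.comp continuous_snd)).subtype_mk _, fun _ _ _ => Subtype.ext (mul_assoc _ _ _), m_comm,
    fun _ => m_eq.2 le_rfl, chains, Y, inferInstance, inferInstance, Subtype.val, inferInstance, inferInstance,
    IsEmbedding.subtypeVal, fun _ _ => rfl, not_closed⟩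

end Pool.Agent.Results.MP_97d10c_gt.Counter
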